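import Pool.Agent.H46.EXC.Stmts
import Pool.Agent.H78.LH.FSP

/-!
# EXC, row ENF: the gap principle
-/

set_option autoImplicit false

namespace Pool.EXC

open Finset Pool.Agent.H98.ABCR Pool.SHA Pool.ABY Pool.VIO

/-- the mass of the known primes -/
lemma enf_mass {c h0 : ℝ} (hc : 0 < c) (h4 : 4 / c ≤ h0) (K : Finset ℕ) (i : Fin 3) (v : ℕ × ℕ)
    (ht : IsTri v) (hup : hh v ≤ 2 * h0) (hi : c * h0 ≤ kl K (coord v i))
    (hs : ∀ s, s ≠ i → Real.log (coord v s) - c / 16 * h0 ≤ kl K (coord v s)) :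
    (2 + c / 8) * hh v ≤ mass K v := by
  have hl2 : Real.log 2 < 1 := by
    have := Real.log_two_lt_d9
    linarith
  have h4' : 4 ≤ c * h0 := by
    rw [div_le_iff₀ hc] at h4
    linarith
  obtain ⟨s1, s2, h12, h1i, h2i⟩ : ∃ s1 s2 : Fin 3, s1 ≠ s2 ∧ s1 ≠ i ∧ s2 ≠ i := by
    revert i
    intro i _ _
    fin_cases i
    · exact ⟨1, 2, by decide, by decide, by decide⟩
    · exact ⟨0, 2, by decide, by decide, by decide⟩
    · exact ⟨0, 1, by decide, by decide, by decide⟩
  have h1 := Pool.LH.FSP78.two_full v ht s1 s2 i h12 h1i h2i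
  have h2 := Pool.LH.FSP78.sum3 (fun s => kl K (coord v s)) s1 s2 i h12 h1i h2i
  have h3 := hs s1 h1i
  have h5 := hs s2 h2i
  have h6 : c / 8 * hh v ≤ c / 8 * (2 * h0) := mul_le_mul_of_nonneg_left hup (by positivity)
  unfold mass
  rw [h2]
  linarith

theorem enf_thm (hG : S_GPD) (hO : Pool.FEX.S_OMB) : S_ENF := by
  intro c ε hc hc1 hε
  obtain ⟨C, hC, hgap⟩ := hG (c / 8) (by positivity) (by linarith)
  obtain ⟨C', hC', homb⟩ := hO C (ε / 2) hC (by positivity)
  refine ⟨4 / c, max 3 (C' ^ (2 / ε)), ?_, le_max_left _ _, ?_⟩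
  · rw [le_div_iff₀ hc]
    linarith
  intro X h0 K i F hX hh0 hF
  have hX3 : 3 ≤ X := (le_max_left _ _).trans hX
  have hX0 : 0 < X := by linarith
  have hL : 1 ≤ Real.log X := by
    rw [Real.le_log_iff_exp_le (by linarith)]
    exact le_trans Real.exp_one_lt_d9.le (by linarith)
  rcases F.eq_empty_or_nonempty with hE | ⟨v, hv⟩
  · rw [hE]
    simp only [Finset.card_empty, Nat.cast_zero]
    positivity
  have h4 : 4 / c ≤ h0 := le_trans (le_mul_of_one_le_right (by positivity) hL) hh0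
  have hh0p : 0 < h0 := lt_of_lt_of_le (by positivity) h4
  have hKp : ∀ q ∈ K, q.Prime := fun q hq =>
    Nat.prime_of_mem_primeFactors ((hF v hv).2.2.2.2.1 hq)
  have h1 := hgap h0 K F hh0p hKp (fun w hw => by
    obtain ⟨hw1, -, hw3, hw4, -, hw6, hw7⟩ := hF w hw
    exact ⟨hw1, hw3, hw4, enf_mass hc h4 K i w hw1 hw4 hw6 hw7⟩)
  have h2 : K.card ≤ om (RR v) := by
    have e : (RR v).primeFactors = (nn v).primeFactors := by
      unfold RR rad
      exact Nat.primeFactors_prod (fun p hp => Nat.prime_of_mem_primeFactors hp)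
    unfold om
    rw [e]
    exact Finset.card_le_card (hF v hv).2.2.2.2.1
  have hR1 : 1 ≤ RR v := by
    unfold RR rad
    exact Nat.one_le_iff_ne_zero.2 (Finset.prod_ne_zero_iff.2
      (fun p hp => (Nat.prime_of_mem_primeFactors hp).ne_zero))
  calc (F.card : ℝ) ≤ C ^ (K.card + 1) := h1
    _ ≤ C ^ (om (RR v) + 1) := pow_le_pow_right₀ hC (by omega)
    _ ≤ C' * (RR v : ℝ) ^ (ε / 2) := homb (RR v) hR1
    _ ≤ X ^ (ε / 2) * X ^ (ε / 2) := by
        refine mul_le_mul ?_ ?_ (by positivity) (by positivity)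
        · have : C' ^ (2 / ε) ≤ X := (le_max_right _ _).trans hX
          have h3 := Real.rpow_le_rpow (by positivity) this (by positivity : 0 ≤ ε / 2)
          rw [← Real.rpow_mul (by linarith)] at h3
          have e : 2 / ε * (ε / 2) = 1 := by field_simp
          rwa [e, Real.rpow_one] at h3
        · exact Real.rpow_le_rpow (by positivity) (hF v hv).2.1 (by positivity)
    _ = X ^ ε := by
        rw [← Real.rpow_add hX0]
        congr 1
        ring

end Pool.EXC
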