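import Pool.Agent.H23.EXC.RTXa

/-!
# EXC, module RTX: few triples with private primes and one small coordinate
-/

set_option autoImplicit false

namespace Pool.EXC

open Finset Pool.Agent.H98.ABCR Pool.SHA Pool.ABY Pool.VIO Pool.VIO.Tsx25

namespace Rtx23

lemma priv_mono {K : Finset ℕ} {i : Fin 3} {F G : Finset (ℕ × ℕ)} (hP : Priv K i F)
    (hG : G ⊆ F) : Priv K i G := by
  intro v hv
  obtain ⟨s, hs, q, hq, hqK, hqs, hno⟩ := hP v (hG hv)
  exact ⟨s, hs, q, hq, hqK, hqs, fun v' hv' => hno v' (hG hv')⟩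

/-- the number of boxes -/
lemma boxes (A ε : ℝ) (hA : 0 ≤ A) (hε : 0 < ε) : ∃ X0 : ℝ, 3 ≤ X0 ∧ ∀ X ≥ X0,
    A * Real.log X * X ^ (ε / 4) + 3 ≤ X ^ (ε / 2) := by
  have h1 := (tendsto_rpow_atTop (show 0 < ε / 8 by positivity)).eventually_ge_atTop
    (A * (8 / ε) + 3)
  obtain ⟨X1, hX1⟩ := Filter.eventually_atTop.1 h1
  refine ⟨max 3 X1, le_max_left _ _, fun X hX => ?_⟩
  have hX3 : 3 ≤ X := (le_max_left _ _).trans hX
  have hX0 : 0 < X := by linarith
  have h2 := hX1 X ((le_max_right _ _).trans hX)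
  have h3 := Real.log_le_rpow_div hX0.le (show 0 < ε / 8 by positivity)
  have hp : 0 < X ^ (ε / 8) := Real.rpow_pos_of_pos hX0 _
  have hp3 : 1 ≤ X ^ (3 * ε / 8) := Real.one_le_rpow (by linarith) (by positivity)
  have e1 : X ^ (ε / 8) * X ^ (ε / 4) = X ^ (3 * ε / 8) := by
    rw [← Real.rpow_add hX0]
    congr 1
    ring
  have e2 : X ^ (ε / 8) * X ^ (3 * ε / 8) = X ^ (ε / 2) := by
    rw [← Real.rpow_add hX0]
    congr 1
    ring
  have h4 : A * Real.log X * X ^ (ε / 4) ≤ A * (8 / ε) * X ^ (3 * ε / 8) := by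
    calc A * Real.log X * X ^ (ε / 4) ≤ A * (X ^ (ε / 8) / (ε / 8)) * X ^ (ε / 4) := by
          refine mul_le_mul_of_nonneg_right ?_ (Real.rpow_nonneg hX0.le _)
          exact mul_le_mul_of_nonneg_left h3 hA
      _ = A * (8 / ε) * (X ^ (ε / 8) * X ^ (ε / 4)) := by
          field_simp
      _ = _ := by rw [e1]
  calc A * Real.log X * X ^ (ε / 4) + 3 ≤ A * (8 / ε) * X ^ (3 * ε / 8) + 3 * X ^ (3 * ε / 8) := by
        linarith
    _ = (A * (8 / ε) + 3) * X ^ (3 * ε / 8) := by ring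
    _ ≤ X ^ (ε / 8) * X ^ (3 * ε / 8) := mul_le_mul_of_nonneg_right h2 (by linarith)
    _ = _ := e2

/-- the size of the approximate roots -/
lemma rt_bound {η d X h0 κ θ : ℝ} {Q q : ℕ} {K : Finset ℕ} {v : ℕ × ℕ} (hη0 : 0 < η)
    (hd0 : 0 < d) (hd1 : d ≤ 1 / 2) (hq1 : 1 ≤ q) (hqQ : q ≤ Q) (hθ0 : 0 < θ)
    (hθ : θ * (2 * Q / η + 1) ≤ d) (hX1 : 1 < X) (hκL : κ * Real.log X = h0)
    (hκ1 : (Q : ℝ) ≤ θ * κ) (hκ2 : 4000 * (Q : ℝ) ≤ κ) (hv : IsTri v) (hR : (RR v : ℝ) ≤ X)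
    (hh2 : hh v ≤ 2 * h0)
    (hq : ∀ p ∈ bigp (X ^ η) K v,
      ∃ n : ℕ, |(q : ℝ) * (((nn v).factorization p : ℝ) / κ) - n| ≤ d) (s : Fin 3) :
    0 ≤ Real.log (rt (mu (X ^ η) κ d q K) s v) ∧
      Real.log (rt (mu (X ^ η) κ d q K) s v) ≤ 6 * Q * Real.log X := by
  refine ⟨Real.log_natCast_nonneg _, ?_⟩
  set L : ℝ := Real.log X with hLdef
  have hL0 : 0 < L := Real.log_pos hX1
  have hq1' : (1 : ℝ) ≤ q := by exact_mod_cast hq1
  have hq0 : (0 : ℝ) < q := by linarith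
  have hqQ' : (q : ℝ) ≤ Q := by exact_mod_cast hqQ
  have hκ0 : 0 < κ := by linarith
  have hh0 : 0 < h0 := by rw [← hκL]; positivity
  set y : ℝ := κ / q with hy
  have hyq : y * q = κ := by rw [hy]; field_simp
  have hy0 : 0 < y := by positivity
  have hy4 : 4000 ≤ y := by
    rw [hy, le_div_iff₀ hq0]
    linarith
  have hθy : 1 ≤ θ * y := by
    rw [hy, mul_div_assoc', le_div_iff₀ hq0]
    linarith
  set g : ℕ := ⌊y⌋₊ with hg
  have hg1 : (g : ℝ) ≤ y := Nat.floor_le hy0.le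
  have hg2 : y < g + 1 := Nat.lt_floor_add_one y
  have hgy : y / 2 ≤ g := by linarith
  have hg0' : (0 : ℝ) < g := by linarith
  have hg0 : 0 < g := by exact_mod_cast hg0'
  have D : Dat X η κ d θ y g h0 q := by
    refine ⟨hX1, hη0, hd0, hd1, hq1, hκ0, hκL, hy, hθ0.le, ?_, by linarith, hg1⟩
    refine le_trans ?_ hθ
    refine mul_le_mul_of_nonneg_left ?_ hθ0.le
    have : 2 * (q : ℝ) / η ≤ 2 * Q / η := by
      apply div_le_div_of_nonneg_right _ hη0.le
      linarith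
    linarith
  refine (rt_le D hg0 hv hR hh2 hq (s := s)).trans ?_
  rw [div_le_iff₀ hg0', ← hκL, ← hyq]
  have h1 : y * q * L ≤ 2 * g * Q * L := by
    refine mul_le_mul_of_nonneg_right ?_ hL0.le
    have h2 : y * q ≤ y * Q := mul_le_mul_of_nonneg_left hqQ' hy0.le
    have h3 : y * (Q : ℝ) ≤ 2 * g * Q := mul_le_mul_of_nonneg_right (by linarith)
      (Nat.cast_nonneg _)
    linarith
  linarith

end Rtx23

open Rtx23 in
theorem rtx_thm (hPZ1 : S_PZ1) (hDIR : S_DIR) (hPAT : S_PAT) (hHGT : S_HGT) : S_RTX := by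
  classical
  intro η ε hη hη1 hε0 hε1
  set d : ℝ := ε / 30000000 with hddef
  have hd0 : 0 < d := by positivity
  have hd1 : d ≤ 1 / 2 := by rw [hddef]; linarith
  have hd : d * 30000000 ≤ ε := by rw [hddef]; linarith
  obtain ⟨Q, hQ1, hQ⟩ := hDIR ⌈1 / η⌉₊ d hd0 hd1
  have hQ1' : (1 : ℝ) ≤ Q := by exact_mod_cast hQ1
  have hQ0 : (0 : ℝ) < Q := by linarith
  set lam : ℝ := ε / (20000000 * Q) with hlamdef
  have hlam0 : 0 < lam := by positivity
  have hlam : lam * (20000000 * Q) ≤ ε := by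
    rw [hlamdef, div_mul_cancel₀ _ (by positivity)]
  set δp : ℝ := ε / (10000000 * Q) with hδpdef
  have hδp0 : 0 < δp := by positivity
  have hδp : δp * (10000000 * Q) ≤ ε := by
    rw [hδpdef, div_mul_cancel₀ _ (by positivity)]
  obtain ⟨C, hC1, hC⟩ := hPAT δp hδp0
  set Nm : ℝ := 2 * Q / η + 1 with hNm
  have hNm1 : 0 < Nm := by positivity
  set θ : ℝ := d / Nm with hθdef
  have hθ0 : 0 < θ := by positivity
  have hθ : θ * (2 * Q / η + 1) ≤ d := by
    rw [← hNm, hθdef, div_mul_cancel₀ _ hNm1.ne']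
  set ε2 : ℝ := ε / 1000000 with hε2def
  have hε20 : 0 < ε2 := by positivity
  have hε2 : ε2 * 1000000 = ε := by rw [hε2def]; ring
  obtain ⟨X1, hX13, hX1⟩ := cbound Q C (ε / 2) hC1 (by positivity)
  obtain ⟨X2, hX23, hX2⟩ := boxes (12 * Q) ε (by positivity) hε0
  refine ⟨lam, max (Q / θ) (4000 * Q), max (max X1 X2) (Real.exp (20 / ε2)), ε2, hlam0, ?_, ?_,
    hε20, ?_⟩
  · refine le_trans ?_ (le_max_right _ _)
    linarith
  · exact hX13.trans ((le_max_left _ _).trans (le_max_left _ _))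
  intro X h0 K i F hX hκ0 hup hF hP
  have hXX1 : X1 ≤ X := ((le_max_left _ _).trans (le_max_left _ _)).trans hX
  have hXX2 : X2 ≤ X := ((le_max_right _ _).trans (le_max_left _ _)).trans hX
  have hXe : Real.exp (20 / ε2) ≤ X := (le_max_right _ _).trans hX
  have hX3 : 3 ≤ X := hX13.trans hXX1
  have hX0 : 0 < X := by linarith
  have hX1' : 1 < X := by linarith
  have hL0 : 0 < Real.log X := Real.log_pos hX1'
  have hL1 : 20 ≤ ε2 * Real.log X := by
    have h1 := (Real.le_log_iff_exp_le hX0).2 hXe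
    rw [div_le_iff₀ hε20] at h1
    linarith
  rcases F.eq_empty_or_nonempty with rfl | ⟨v0, hv0⟩
  · simp only [card_empty, Nat.cast_zero]
    exact Real.rpow_nonneg hX0.le _
  set κ : ℝ := h0 / Real.log X with hκdef
  have hκL : κ * Real.log X = h0 := by
    rw [hκdef]
    field_simp
  have hκ' : max (Q / θ) (4000 * Q) ≤ κ := by
    rw [hκdef, le_div_iff₀ hL0]
    exact hκ0
  have hκ1 : Q ≤ θ * κ := by
    have h1 := (le_max_left ((Q : ℝ) / θ) (4000 * Q)).trans hκ'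
    rw [div_le_iff₀ hθ0] at h1
    linarith
  have hκ2 : 4000 * (Q : ℝ) ≤ κ := (le_max_right _ _).trans hκ'
  have hκp : 0 < κ := lt_of_lt_of_le (by positivity) hκ2
  have hh0 : 0 < h0 := by
    rw [← hκL]
    positivity
  obtain ⟨j, k, hjk, hji, hki, hall⟩ := others i
  have hKp : ∀ t ∈ K, t.Prime := fun t ht => (Nat.mem_primeFactors.1 ((hF v0 hv0).sub ht)).1
  obtain ⟨n, cl, hn, hcl, hpat⟩ := hC K h0 hKp hh0
  set e : ℝ := Real.exp (ε / 4 * Real.log X) with hedef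
  have he0 : 0 < e := Real.exp_pos _
  have heX : e = X ^ (ε / 4) := by
    rw [hedef, Real.rpow_def_of_pos hX0, mul_comm]
  set u : ℕ → ℕ × ℕ → ℝ := fun q v => Real.log (rt (mu (X ^ η) κ d q K) j v) -
    Real.log (rt (mu (X ^ η) κ d q K) k v) with hu
  set Bz : ℤ := ⌈6 * Q * Real.log X * e⌉ with hBz
  have hBz1 : 6 * Q * Real.log X * e ≤ Bz := Int.le_ceil _
  have hBz2 : (Bz : ℝ) < 6 * Q * Real.log X * e + 1 := Int.ceil_lt_add_one _
  have hBz0 : 0 ≤ Bz := by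
    have : (0 : ℝ) ≤ Bz := le_trans (by positivity) hBz1
    exact_mod_cast this
  have hcov := cover F ((range n ×ˢ Icc 1 Q) ×ˢ (Icc (-Bz) Bz))
    (fun x v => cl v = x.1.1 ∧ (∀ p ∈ bigp (X ^ η) K v,
      ∃ n : ℕ, |(x.1.2 : ℝ) * (((nn v).factorization p : ℝ) / κ) - n| ≤ d) ∧
      ⌊u x.1.2 v * e⌋ = x.2) 1
    (by
      intro v hv
      obtain ⟨q, hq1, hqQ, hq⟩ := hQ (bigp (X ^ η) K v)
        (fun p => ((nn v).factorization p : ℝ) / κ) (bigp_card hX1' hη (hF v hv).rad)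
        (fun p _ => by positivity)
      refine ⟨((cl v, q), ⌊u q v * e⌋), ?_, rfl, hq, rfl⟩
      rw [mem_product, mem_product, mem_range, mem_Icc, mem_Icc]
      refine ⟨⟨hcl v (hF v hv).tri (hF v hv).up, hq1, hqQ⟩, ?_⟩
      have hb := fun s => rt_bound (K := K) hη hd0 hd1 hq1 hqQ hθ0 hθ hX1' hκL hκ1 hκ2
        (hF v hv).tri (hF v hv).rad (hF v hv).up hq s
      have hu1 : |u q v| ≤ 6 * Q * Real.log X := by
        rw [abs_le]
        have h1 := hb j
        have h2 := hb k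
        constructor
        · simp only [hu]
          linarith [h1.1, h2.2]
        · simp only [hu]
          linarith [h1.2, h2.1]
      have hu2 : |u q v * e| ≤ 6 * Q * Real.log X * e := by
        rw [abs_mul, abs_of_pos he0]
        exact mul_le_mul_of_nonneg_right hu1 he0.le
      rw [abs_le] at hu2
      constructor
      · rw [Int.le_floor]
        push_cast
        linarith [hu2.1]
      · have h3 : ((⌊u q v * e⌋ : ℤ) : ℝ) ≤ Bz := (Int.floor_le _).trans (hu2.2.trans hBz1)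
        exact_mod_cast h3)
    (by
      rintro ⟨⟨a, q⟩, z⟩ haq H hHF hH
      rw [mem_product, mem_product, mem_range, mem_Icc] at haq
      obtain ⟨⟨-, hq1, hqQ⟩, -⟩ := haq
      simp only at hq1 hqQ hH
      have hcard : H.card ≤ 1 := by
        rw [card_le_one]
        intro v1 hv1 v2 hv2
        by_contra hne
        refine core hPZ1 hHGT (F := H) hη hε0 hε1 hd0 hd1 hd hq1 hqQ hlam0 hlam hδp0 hδp hε2 hθ0
          hθ hX1' hκL hκ1 hκ2 hup hL1 (fun v hv => hF v (hHF hv)) (priv_mono hP hHF) hjk hji hki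
          hall ?_ (fun v hv => (hH v hv).2.1) hv1 hv2 hne ?_
        · intro v hv v' hv' s p hp
          exact hpat v v' (hF v (hHF hv)).tri (hF v' (hHF hv')).tri (hF v (hHF hv)).up
            (hF v' (hHF hv')).up ((hH v hv).1.trans (hH v' hv').1.symm) s p hp
        · have h1 : ⌊u q v1 * e⌋ = ⌊u q v2 * e⌋ := (hH v1 hv1).2.2.trans (hH v2 hv2).2.2.symm
          have h2 := Int.abs_sub_lt_one_of_floor_eq_floor h1
          rw [← sub_mul, abs_mul, abs_of_pos he0] at h2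
          rw [Real.exp_neg, ← hedef, inv_eq_one_div, le_div_iff₀ he0]
          exact h2.le
      exact_mod_cast hcard)
  have hcard1 : (((range n ×ˢ Icc 1 Q).card : ℕ) : ℝ) ≤ X ^ (ε / 2) := by
    rw [card_product, card_range, Nat.card_Icc]
    push_cast
    have h1 := hX1 X hXX1 K.card (card_fact_le (hF v0 hv0).rad (hF v0 hv0).sub)
    have h2 : (n : ℝ) * ((Q : ℝ)) ≤ C ^ (K.card + 1) * Q :=
      mul_le_mul_of_nonneg_right hn hQ0.le
    linarith
  have hcard2 : (((Icc (-Bz) Bz).card : ℕ) : ℝ) ≤ X ^ (ε / 2) := by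
    have h1 : (((Icc (-Bz) Bz).card : ℕ) : ℝ) = 2 * Bz + 1 := by
      rw [Int.card_Icc]
      have h2 : ((Bz + 1 - -Bz).toNat : ℤ) = 2 * Bz + 1 := by omega
      have h3 : (((Bz + 1 - -Bz).toNat : ℤ) : ℝ) = ((2 * Bz + 1 : ℤ) : ℝ) := by rw [h2]
      rw [Int.cast_natCast] at h3
      rw [h3]
      push_cast
      ring
    rw [h1]
    have h3 := hX2 X hXX2
    rw [← heX] at h3
    linarith
  refine hcov.trans ?_
  rw [card_product, mul_one]
  push_cast
  calc (((range n ×ˢ Icc 1 Q).card : ℕ) : ℝ) * (((Icc (-Bz) Bz).card : ℕ) : ℝ) ≤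
        X ^ (ε / 2) * X ^ (ε / 2) :=
        mul_le_mul hcard1 hcard2 (Nat.cast_nonneg _) (Real.rpow_nonneg hX0.le _)
    _ = X ^ ε := by
        rw [← Real.rpow_add hX0]
        congr 1
        ring

end Pool.EXC
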