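import Pool.Agent.H46.EXC.StmtsY
import Pool.Agent.H25.VIO.TSXc
import Pool.Agent.H2.LH.TUR

/-!
# EXC, module RTX, part 1: two triples of the same class
-/

set_option autoImplicit false

namespace Pool.EXC

open Finset Pool.Agent.H98.ABCR Pool.SHA Pool.ABY Pool.VIO Pool.VIO.Tsx25

namespace Rtx23

/-- The arithmetic of the final contradiction. -/
lemma arith {ε ε2 d lam δp κ L h0 g M n q Q lg : ℝ} (hε0 : 0 < ε) (hε1 : ε ≤ 1)
    (hq1 : 1 ≤ q) (hqQ : q ≤ Q) (hd0 : 0 < d) (hd : d * 30000000 ≤ ε)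
    (hlam0 : 0 < lam) (hlam : lam * (20000000 * Q) ≤ ε) (hδp0 : 0 < δp)
    (hδp : δp * (10000000 * Q) ≤ ε) (hε2 : ε2 * 1000000 = ε) (hL : 1 ≤ L) (hκ1 : 1 ≤ κ)
    (hκ : κ * L = h0) (hg0 : 0 < g) (hgq : g * q ≤ κ) (hM0 : 0 ≤ M) (hM : M * 1000 ≤ g)
    (hn0 : 0 ≤ n) (hn : n * ε ≤ 8003 * q) (hlg : lg ≤ 2 * ε2 * L) :
    100 * (M * n) * lg + 4 * n * (4 * (2 * d * h0 / q + lam * h0) + 2 * (δp * h0)) +
      M * (6 * h0 / g) + M < h0 / 4 := by
  have hq0 : 0 < q := by linarith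
  have hL0 : 0 < L := by linarith
  have hκ0 : 0 < κ := by linarith
  have hh0 : 0 < h0 := by rw [← hκ]; positivity
  have hε20 : 0 < ε2 := by linarith
  -- first term
  have h1 : 100 * (M * n) * lg ≤ h0 / 100 := by
    have a1 : M * n * ε * 1000 ≤ 8003 * κ := by
      have : M * 1000 * (n * ε) ≤ g * (8003 * q) :=
        mul_le_mul hM hn (by positivity) hg0.le
      nlinarith
    have a2 : M * n * lg ≤ M * n * (2 * ε2 * L) :=
      mul_le_mul_of_nonneg_left hlg (by positivity)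
    have a3 : M * n * (2 * ε2 * L) * 1000000 = 2 * (M * n * ε) * L := by
      rw [← hε2]; ring
    have a4 : (M * n * ε * 1000) * L ≤ 8003 * h0 := by
      rw [← hκ]
      nlinarith
    nlinarith
  -- second term
  have h2 : 4 * n * (4 * (2 * d * h0 / q + lam * h0) + 2 * (δp * h0)) ≤ h0 / 20 := by
    have e : 4 * n * (4 * (2 * d * h0 / q + lam * h0) + 2 * (δp * h0)) =
        (32 * (n * d / q) + 16 * (n * lam) + 8 * (n * δp)) * h0 := by
      field_simp
      ring
    rw [e]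
    have b0 : n * d / q ≤ 8003 / 30000000 := by
      rw [div_le_iff₀ hq0]
      have : n * (d * 30000000) ≤ n * ε := mul_le_mul_of_nonneg_left hd hn0
      linarith
    have b1 : n * lam ≤ 8003 / 20000000 := by
      have : n * (lam * (20000000 * Q)) ≤ n * ε := mul_le_mul_of_nonneg_left hlam hn0
      have c1 : n * lam * 20000000 * q ≤ n * lam * 20000000 * Q :=
        mul_le_mul_of_nonneg_left hqQ (by positivity)
      have c2 : n * lam * 20000000 * q ≤ 8003 * q := by linarith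
      have c3 := le_of_mul_le_mul_right c2 hq0
      linarith
    have b2 : n * δp ≤ 8003 / 10000000 := by
      have : n * (δp * (10000000 * Q)) ≤ n * ε := mul_le_mul_of_nonneg_left hδp hn0
      have c1 : n * δp * 10000000 * q ≤ n * δp * 10000000 * Q :=
        mul_le_mul_of_nonneg_left hqQ (by positivity)
      have c2 : n * δp * 10000000 * q ≤ 8003 * q := by linarith
      have c3 := le_of_mul_le_mul_right c2 hq0
      linarith
    have b3 : 32 * (n * d / q) + 16 * (n * lam) + 8 * (n * δp) ≤ 1 / 20 := by linarith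
    nlinarith
  -- third term
  have h3 : M * (6 * h0 / g) ≤ h0 / 100 := by
    rw [mul_div_assoc', div_le_iff₀ hg0]
    nlinarith
  -- fourth term
  have h4 : M ≤ h0 / 100 := by
    have a1 : g ≤ κ := by nlinarith
    have a2 : κ ≤ h0 := by rw [← hκ]; nlinarith
    linarith
  linarith

/-- logarithms in the equation of `S_HGT` -/
lemma log_eq {a1 b1 a2 b2 r1 r2 s1 s2 N D g : ℕ} (ha1 : 0 < a1) (hb1 : 0 < b1) (ha2 : 0 < a2)
    (hb2 : 0 < b2) (hr1 : 0 < r1) (hr2 : 0 < r2) (hs1 : 0 < s1) (hs2 : 0 < s2) (hN : 0 < N)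
    (hD : 0 < D) (h : a1 * b2 * (s1 * r2) ^ g * D = b1 * a2 * (r1 * s2) ^ g * N) :
    (Real.log a1 - Real.log b1) - (Real.log a2 - Real.log b2) =
      (Real.log N - Real.log D) +
        g * (Real.log ((r1 * s2 : ℕ) : ℝ) - Real.log ((s1 * r2 : ℕ) : ℝ)) := by
  have a1' : (a1 : ℝ) ≠ 0 := by positivity
  have b1' : (b1 : ℝ) ≠ 0 := by positivity
  have a2' : (a2 : ℝ) ≠ 0 := by positivity
  have b2' : (b2 : ℝ) ≠ 0 := by positivity
  have N' : (N : ℝ) ≠ 0 := by positivity
  have D' : (D : ℝ) ≠ 0 := by positivity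
  have w1 : ((r1 * s2 : ℕ) : ℝ) ≠ 0 := by positivity
  have w2 : ((s1 * r2 : ℕ) : ℝ) ≠ 0 := by positivity
  have h' : (a1 : ℝ) * b2 * ((s1 * r2 : ℕ) : ℝ) ^ g * D =
      b1 * a2 * ((r1 * s2 : ℕ) : ℝ) ^ g * N := by exact_mod_cast h
  have h2 := congrArg Real.log h'
  rw [Real.log_mul (mul_ne_zero (mul_ne_zero a1' b2') (pow_ne_zero _ w2)) D',
    Real.log_mul (mul_ne_zero a1' b2') (pow_ne_zero _ w2), Real.log_mul a1' b2', Real.log_pow,
    Real.log_mul (mul_ne_zero (mul_ne_zero b1' a2') (pow_ne_zero _ w1)) N',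
    Real.log_mul (mul_ne_zero b1' a2') (pow_ne_zero _ w1), Real.log_mul b1' a2',
    Real.log_pow] at h2
  linarith

/-- Two triples of the same class with approximate roots in the same box. -/
lemma core (hPZ1 : S_PZ1) (hHGT : S_HGT) {η ε ε2 d lam δp X h0 κ θ : ℝ} {Q q : ℕ}
    {K : Finset ℕ} {i j k : Fin 3} {F : Finset (ℕ × ℕ)} (hη0 : 0 < η) (hε0 : 0 < ε)
    (hε1 : ε ≤ 1) (hd0 : 0 < d) (hd1 : d ≤ 1 / 2) (hd : d * 30000000 ≤ ε) (hq1 : 1 ≤ q)
    (hqQ : q ≤ Q) (hlam0 : 0 < lam) (hlam : lam * (20000000 * Q) ≤ ε) (hδp0 : 0 < δp)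
    (hδp : δp * (10000000 * Q) ≤ ε) (hε2 : ε2 * 1000000 = ε) (hθ0 : 0 < θ)
    (hθ : θ * (2 * Q / η + 1) ≤ d) (hX1 : 1 < X) (hκL : κ * Real.log X = h0)
    (hκ1 : (Q : ℝ) ≤ θ * κ) (hκ2 : 4000 * (Q : ℝ) ≤ κ) (hup : h0 ≤ X ^ ε2)
    (hL1 : 20 ≤ ε2 * Real.log X)
    (hF : ∀ v ∈ F, FamR X h0 η lam K i v) (hP : Priv K i F) (hjk : j ≠ k) (hji : j ≠ i)
    (hki : k ≠ i) (hall : ∀ s, s ≠ i → s = j ∨ s = k)
    (hpat : ∀ v ∈ F, ∀ v' ∈ F, ∀ s, ∀ p ∈ K,
      |((coord v s).factorization p : ℝ) - (coord v' s).factorization p| * Real.log p *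
        (K.card + 1) ≤ δp * h0)
    (hqF : ∀ v ∈ F, ∀ p ∈ bigp (X ^ η) K v,
      ∃ n : ℕ, |(q : ℝ) * (((nn v).factorization p : ℝ) / κ) - n| ≤ d)
    {v1 v2 : ℕ × ℕ} (hv1 : v1 ∈ F) (hv2 : v2 ∈ F) (hne : v1 ≠ v2)
    (hbox : |(Real.log (rt (mu (X ^ η) κ d q K) j v1) - Real.log (rt (mu (X ^ η) κ d q K) k v1)) -
      (Real.log (rt (mu (X ^ η) κ d q K) j v2) - Real.log (rt (mu (X ^ η) κ d q K) k v2))| ≤
        Real.exp (-(ε / 4 * Real.log X))) : False := by
  classical
  have hX0 : 0 < X := by linarith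
  set L : ℝ := Real.log X with hLdef
  have hL0 : 0 < L := Real.log_pos hX1
  have hε20 : 0 < ε2 := by linarith
  have hLbig : 20000000 ≤ L := by
    by_contra h
    push Not at h
    have : ε2 * L < 20 := by
      have h1 : ε2 ≤ 1 / 1000000 := by linarith
      have h2 : ε2 * L ≤ 1 / 1000000 * L := mul_le_mul_of_nonneg_right h1 hL0.le
      linarith
    linarith
  have hq1' : (1 : ℝ) ≤ q := by exact_mod_cast hq1
  have hq0 : (0 : ℝ) < q := by linarith
  have hqQ' : (q : ℝ) ≤ Q := by exact_mod_cast hqQ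
  have hQ0 : (0 : ℝ) < Q := by linarith
  have hκ0 : 0 < κ := by linarith
  have hκ1' : 1 ≤ κ := by linarith
  have hh0 : 0 < h0 := by rw [← hκL]; positivity
  have hκh : κ ≤ h0 := by
    rw [← hκL]
    exact le_mul_of_one_le_right hκ0.le (by linarith)
  have hKp : ∀ t ∈ K, t.Prime := fun t ht => (Nat.mem_primeFactors.1 ((hF v1 hv1).sub ht)).1
  -- the integer g
  set y : ℝ := κ / q with hy
  have hyq : y * q = κ := by rw [hy]; field_simp
  have hy0 : 0 < y := by positivity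
  have hy4 : 4000 ≤ y := by
    rw [hy, le_div_iff₀ hq0]
    linarith
  have hθy : 1 ≤ θ * y := by
    rw [hy, mul_div_assoc', le_div_iff₀ hq0]
    linarith
  set g : ℕ := ⌊y⌋₊ with hg
  have hg1 : (g : ℝ) ≤ y := Nat.floor_le hy0.le
  have hg2 : y < g + 1 := Nat.lt_floor_add_one y
  have hgy : y / 2 ≤ g := by linarith
  have hg3 : (3999 : ℝ) ≤ g := by linarith
  have hg0' : (0 : ℝ) < g := by linarith
  have hg0 : 0 < g := by exact_mod_cast hg0'
  have D : Dat X η κ d θ y g h0 q := by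
    refine ⟨hX1, hη0, hd0, hd1, hq1, hκ0, hκL, hy, hθ0.le, ?_, by linarith, hg1⟩
    refine le_trans ?_ hθ
    refine mul_le_mul_of_nonneg_left ?_ hθ0.le
    have : 2 * (q : ℝ) / η ≤ 2 * Q / η := by
      apply div_le_div_of_nonneg_right _ hη0.le
      linarith
    linarith
  set μ : ℕ × ℕ → ℕ → ℕ := mu (X ^ η) κ d q K with hμ
  set a : ℝ := 2 * d * h0 / q + lam * h0 with ha
  set b : ℝ := δp * h0 with hb
  have hrst : ∀ v ∈ F, ∀ s, s ≠ i → rst g K μ s v ≤ a := fun v hv s hs =>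
    rst_le D (hF v hv).tri (hF v hv).rad (hF v hv).up hs (hF v hv).lg (hqF v hv)
  have ha0 : 0 ≤ a := by positivity
  have hb0 : 0 ≤ b := by positivity
  have hABF : ∀ v ∈ ({v1} : Finset (ℕ × ℕ)) ∪ {v2}, v ∈ F := fun v hv => by
    rcases mem_union.1 hv with h | h
    · rw [mem_singleton.1 h]
      exact hv1
    · rw [mem_singleton.1 h]
      exact hv2
  obtain ⟨N, E, hN0, hE0, hcop, heq, hN, hE⟩ := hHGT g K μ j k {v1} {v2} a b ha0 hb0 hjk hKp
    (disjoint_singleton.2 hne) (by rw [card_singleton, card_singleton])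
    (fun v hv => ⟨(hF v (hABF v hv)).tri, fun p hp => mu_zero_K hp,
      hrst v (hABF v hv) j hji, hrst v (hABF v hv) k hki⟩)
    (fun v hv v' hv' s p hp => hpat v (hABF v hv) v' (hABF v' hv') s p hp)
  simp only [prod_singleton, card_singleton, Nat.cast_one, one_mul] at heq hN hE
  -- the small coordinate
  have hh2 : ∀ v ∈ F, 2 ≤ hh v := fun v hv => by
    have := (hF v hv).lo
    linarith
  have hsm : ∀ v ∈ F, |Real.log (coord v k) - Real.log (coord v j)| ≤
      2 * Real.exp (-(h0 / 2)) := by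
    intro v hv
    refine (Pool.LH.TURP.small v i k j (hF v hv).tri (hh2 v hv) (hF v hv).sm hjk.symm hki
      hji).trans ?_
    have := (hF v hv).lo
    have h3 : Real.exp (-(hh v / 2)) ≤ Real.exp (-(h0 / 2)) := Real.exp_le_exp.2 (by linarith)
    linarith
  have hlog := log_eq (coord_pos (hF v1 hv1).tri k) (coord_pos (hF v1 hv1).tri j)
    (coord_pos (hF v2 hv2).tri k) (coord_pos (hF v2 hv2).tri j) rt_pos rt_pos rt_pos rt_pos hN0
    hE0 heq
  set W1 : ℕ := rt μ k v1 * rt μ j v2 with hW1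
  set W2 : ℕ := rt μ j v1 * rt μ k v2 with hW2
  have hW10 : 0 < W1 := Nat.mul_pos rt_pos rt_pos
  have hW20 : 0 < W2 := Nat.mul_pos rt_pos rt_pos
  have hlW1 : Real.log W1 = Real.log (rt μ k v1) + Real.log (rt μ j v2) := by
    rw [hW1, Nat.cast_mul]
    have p1 : 0 < rt μ k v1 := rt_pos
    have p2 : 0 < rt μ j v2 := rt_pos
    exact Real.log_mul (by positivity) (by positivity)
  have hlW2 : Real.log W2 = Real.log (rt μ j v1) + Real.log (rt μ k v2) := by
    rw [hW2, Nat.cast_mul]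
    have p1 : 0 < rt μ j v1 := rt_pos
    have p2 : 0 < rt μ k v2 := rt_pos
    exact Real.log_mul (by positivity) (by positivity)
  have hrel : |(Real.log N - Real.log E) + g * (Real.log W1 - Real.log W2)| ≤
      Real.exp (-(h0 / 4)) := by
    rw [← hlog]
    refine (abs_sub _ _).trans ?_
    have h1 := hsm v1 hv1
    have h2 := hsm v2 hv2
    have h3 : 4 * Real.exp (-(h0 / 2)) ≤ Real.exp (-(h0 / 4)) := by
      have e : Real.exp (-(h0 / 2)) = Real.exp (-(h0 / 4)) * Real.exp (-(h0 / 4)) := by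
        rw [← Real.exp_add]
        congr 1
        ring
      have h4 : Real.exp (-(h0 / 4)) ≤ 1 / 4 := by
        have h5 : h0 / 4 + 1 ≤ Real.exp (h0 / 4) := Real.add_one_le_exp _
        rw [Real.exp_neg, inv_eq_one_div]
        apply one_div_le_one_div_of_le (by norm_num)
        linarith
      rw [e]
      have := mul_le_mul_of_nonneg_left h4 (Real.exp_pos (-(h0 / 4))).le
      linarith
    linarith
  have hgX : (g : ℝ) ≤ X ^ ε2 := (hg1.trans (by rw [hy]; exact div_le_self hκ0.le hq1')).trans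
    (hκh.trans hup)
  have hcN : |Real.log N - Real.log E| ≤ Real.exp (-(ε / 8 * L)) := by
    have e : Real.log N - Real.log E = ((Real.log N - Real.log E) +
        g * (Real.log W1 - Real.log W2)) + g * ((Real.log (rt μ j v1) - Real.log (rt μ k v1)) -
          (Real.log (rt μ j v2) - Real.log (rt μ k v2))) := by
      rw [hlW1, hlW2]
      ring
    rw [e]
    refine (abs_add_le _ _).trans ?_
    rw [abs_mul, abs_of_pos hg0']
    have h1 : (g : ℝ) * |(Real.log (rt μ j v1) - Real.log (rt μ k v1)) -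
        (Real.log (rt μ j v2) - Real.log (rt μ k v2))| ≤
          Real.exp (ε2 * L) * Real.exp (-(ε / 4 * L)) := by
      refine mul_le_mul ?_ hbox (abs_nonneg _) (Real.exp_pos _).le
      refine hgX.trans (le_of_eq ?_)
      rw [Real.rpow_def_of_pos hX0, mul_comm]
    rw [← Real.exp_add] at h1
    have h2 : Real.exp (ε2 * L + -(ε / 4 * L)) ≤ 1 / 2 * Real.exp (-(ε / 8 * L)) := by
      have e2 : ε2 * L + -(ε / 4 * L) = -(ε / 8 * L - ε2 * L) + -(ε / 8 * L) := by ring
      rw [e2, Real.exp_add]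
      refine mul_le_mul_of_nonneg_right ?_ (Real.exp_pos _).le
      have h5 := Real.add_one_le_exp (ε / 8 * L - ε2 * L)
      rw [Real.exp_neg, inv_eq_one_div]
      apply one_div_le_one_div_of_le (by norm_num)
      have h6 : ε / 8 * L = 125000 * (ε2 * L) := by
        rw [← hε2]
        ring
      rw [h6] at h5 ⊢
      linarith
    have h3 : Real.exp (-(h0 / 4)) ≤ 1 / 2 * Real.exp (-(ε / 8 * L)) := by
      have e2 : -(h0 / 4) = -(h0 / 4 - ε / 8 * L) + -(ε / 8 * L) := by ring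
      rw [e2, Real.exp_add]
      refine mul_le_mul_of_nonneg_right ?_ (Real.exp_pos _).le
      have h5 := Real.add_one_le_exp (h0 / 4 - ε / 8 * L)
      rw [Real.exp_neg, inv_eq_one_div]
      apply one_div_le_one_div_of_le (by norm_num)
      have h6 : ε / 8 * L ≤ L / 8 := by
        have := mul_le_mul_of_nonneg_right hε1 hL0.le
        linarith
      have h7 : L ≤ h0 := by
        rw [← hκL]
        exact le_mul_of_one_le_left hL0.le hκ1'
      linarith
    linarith
  have hApR : Pool.LH.ApR g 1 (ε / 8 * L) (h0 / 4) N E W1 W2 := by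
    refine ⟨hN0, hE0, hW10, hW20, hcN, ?_⟩
    rw [Nat.cast_one, one_mul]
    exact hrel
  have hnt : N ≠ E ∨ W1 ≠ W2 := by
    by_contra h
    push Not at h
    obtain ⟨h1, h2⟩ := h
    have h3 := ne_of_priv hP hjk hji hki hall (singleton_subset_iff.2 hv1)
      (singleton_subset_iff.2 hv2) (disjoint_singleton.2 hne) (singleton_nonempty v1)
      (fun v hv => (hF v hv).tri)
    simp only [prod_singleton] at h3
    apply h3
    rw [h1, h2] at heq
    have h4 := Nat.eq_of_mul_eq_mul_right hE0 heq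
    exact Nat.eq_of_mul_eq_mul_right (pow_pos hW20 g) h4
  -- the parameters
  set M : ℕ := ⌊(g : ℝ) / 1000⌋₊ with hM
  have hM1 : (M : ℝ) ≤ g / 1000 := Nat.floor_le (by positivity)
  have hM2 : (g : ℝ) / 1000 < M + 1 := Nat.lt_floor_add_one _
  have hM3 : (2 : ℝ) < M := by linarith
  set n : ℕ := ⌈8000 * (q : ℝ) / ε⌉₊ + 2 with hn
  have hn1 : 8000 * (q : ℝ) / ε ≤ n := by
    rw [hn]
    push_cast
    have := Nat.le_ceil (8000 * (q : ℝ) / ε)
    linarith
  have hn2 : (n : ℝ) ≤ 8000 * (q : ℝ) / ε + 3 := by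
    rw [hn]
    push_cast
    have := Nat.ceil_lt_add_one (show 0 ≤ 8000 * (q : ℝ) / ε by positivity)
    linarith
  have hlgW : ∀ v ∈ F, ∀ s, Real.log (rt μ s v) ≤ 3 * h0 / g := fun v hv s =>
    rt_le D hg0 (hF v hv).tri (hF v hv).rad (hF v hv).up (hqF v hv)
  have hV : 2 * (3 * h0 / g) = 6 * h0 / g := by ring
  have hεL : ε / 8 * L = 125000 * (ε2 * L) := by
    rw [← hε2]
    ring
  have hb1 : 1 ≤ ε / 8 * L := by
    rw [hεL]
    linarith
  have hgq : (g : ℝ) * q ≤ κ := by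
    rw [← hyq]
    exact mul_le_mul_of_nonneg_right hg1 hq0.le
  have hfin := hPZ1 g M n (ε / 8 * L) (h0 / 4) N E W1 W2 (4 * a + 2 * b) (6 * h0 / g)
    (by have : (2 : ℝ) ≤ g := by linarith
        exact_mod_cast this)
    (by have : (1 : ℝ) ≤ M := by linarith
        exact_mod_cast this)
    (by have : (M : ℝ) ≤ g := by linarith
        exact_mod_cast this)
    (by omega) hApR hnt hb1 (by linarith) ?_ (by positivity) (by positivity) ?_ ?_ ?_ ?_
  · have hlg : Real.log (6 * g) ≤ 2 * ε2 * L := by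
      have h1 : Real.log (6 * g) = Real.log 6 + Real.log g :=
        Real.log_mul (by norm_num) hg0'.ne'
      have h2 : Real.log g ≤ ε2 * L := by
        rw [hLdef, ← Real.log_rpow hX0]
        exact Real.log_le_log hg0' hgX
      have h3 : Real.log 6 ≤ 6 - 1 := Real.log_le_sub_one_of_pos (by norm_num)
      linarith
    have h8 := arith (M := (M : ℝ)) (n := (n : ℝ)) (g := (g : ℝ)) hε0 hε1 hq1' hqQ' hd0 hd hlam0
      hlam hδp0 hδp hε2 (by linarith) hκ1' hκL hg0' hgq (Nat.cast_nonneg _)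
      (by linarith) (Nat.cast_nonneg _) (by
        rw [div_le_iff₀ hε0] at hn1
        have h5 : (n : ℝ) * ε ≤ (8000 * (q : ℝ) / ε + 3) * ε :=
          mul_le_mul_of_nonneg_right hn2 hε0.le
        have h6 : (8000 * (q : ℝ) / ε + 3) * ε = 8000 * q + 3 * ε := by field_simp
        rw [h6] at h5
        linarith) hlg
    linarith
  · -- `B ≤ b M n`
    have h1 : y / 4 ≤ M * 1000 := by linarith
    have h2 : 8000 * (q : ℝ) ≤ n * ε := by
      rw [div_le_iff₀ hε0] at hn1
      linarith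
    have h3 : y / 4 * (8000 * q) ≤ M * 1000 * (n * ε) :=
      mul_le_mul h1 h2 (by positivity) (by positivity)
    have h4 : 2 * κ ≤ M * (n * ε) := by
      have : y / 4 * (8000 * q) = 2000 * κ := by rw [← hyq]; ring
      rw [this] at h3
      linarith
    rw [← hκL]
    have h5 : ε / 8 * L * (M * n) = M * (n * ε) * L / 8 := by ring
    rw [h5]
    have := mul_le_mul_of_nonneg_right h4 hL0.le
    linarith
  · rw [← Real.log_le_iff_le_exp (by exact_mod_cast hN0)]
    exact hN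
  · rw [← Real.log_le_iff_le_exp (by exact_mod_cast hE0)]
    exact hE
  · rw [← Real.log_le_iff_le_exp (by exact_mod_cast hW10), hlW1, ← hV]
    have := hlgW v1 hv1 k
    have := hlgW v2 hv2 j
    linarith
  · rw [← Real.log_le_iff_le_exp (by exact_mod_cast hW20), hlW2, ← hV]
    have := hlgW v1 hv1 j
    have := hlgW v2 hv2 k
    linarith

end Rtx23

end Pool.EXC
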